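import Pool.Agent.Q118.SK.Base

/-!
# Skew endomorphisms of `P^(N+1)`: hypersurfaces which are met only finitely often

Let `B = b / a` be any rational function of degree `d ≥ 2` which fixes `0` with multiplier
`B'(0) ≠ 0` (every rational function of degree at least two has a fixed point whose multiplier is not
zero), and let `T_1, …, T_N` be complex forms of degree `d` in `N + 2` variables without a common zero
on `X_0 = X_1 = 0`, so that

`F = [X_1^d b(X_0/X_1) : X_1^d a(X_0/X_1) : T_1 : … : T_N]`

is an endomorphism of `P^(N+1)`, a skew product over `B`; there is no condition on the ramification of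
`F`. On the fibre over the fixed point `0` the map is the regular polynomial endomorphism
`f = (T_j(0, 1, x))` of the affine space of dimension `N`. Let `g` be a form in `N + 2` variables whose
restriction `g(0, 1, x)` is `c ∏ J`, `c ≠ 0`, where each hypersurface `J = 0` is escaping for `f`: there
are finitely many hypersurfaces `P_i = 0`, `P_0 = J`, such that `f` maps `P_i = 0` to
`P_(i + 1) = 0`, and such that `P_i = 0` does not meet `J = 0` for `i ≥ 1`. (There may be no `J`; and
`x_k = c` is escaping if the `k`-th coordinate of `f` is a polynomial `q(x_k)` for which `c` is strictly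
preperiodic, second part.)

Then the set of the `n` for which `F^n(α)` lies on `g = 0` is finite (so that the Dynamical
Mordell-Lang conjecture holds for `F`, `α` and all closed subsets of the hypersurface `g = 0`), for all
complex points `α` with `(α_0, α_1) ≠ (0, 0)` such that

* `[α_0 : α_1]` is mapped to the fixed point `0` by an iterate of `B`, or
* `B` has algebraic coefficients and `[α_0 : α_1]` is any complex point that is not preperiodic
  for `B`, or
* `α_0 / α_1` is transcendental over the field generated by the coefficients of `b` and `a`.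

The definitions (in the helper files):
* `psys d b a T` is the system of forms written above (`hp d q i j` is `X_j^d q(X_i/X_j)`);
* `fch q` is `q(0, 1, X_0, …, X_(N - 1))`;
* `Escaping f J` is the property above;
* `pt F x` is the value of the system at `x`.
-/

set_option autoImplicit false

namespace Pool.Agent.Results.MP_b15c9e_ag.FiniteReturns

open MvPolynomial Pool.Agent.H936R2 Pool.Agent.Y199.DM Pool.Agent.Q118.SK

/-- Hypersurfaces whose trace on the fixed fibre is escaping are met only finitely often. -/
theorem result :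
    (∀ (N d : ℕ), 2 ≤ d → ∀ (b a : Polynomial ℂ), b.natDegree ≤ d → a.natDegree ≤ d →
      (a.coeff d ≠ 0 ∨ b.coeff d ≠ 0) → IsCoprime a b →
      b.coeff 0 = 0 → a.coeff 0 = 1 → b.coeff 1 ≠ 0 →
      ∀ (T : Fin N → MvPolynomial (Fin (N + 2)) ℂ), (∀ j, (T j).IsHomogeneous d) →
      (∀ y : Fin N → ℂ,
        (∀ j, eval (Fin.cons 0 (Fin.cons 0 y) : Fin (N + 2) → ℂ) (T j) = 0) → y = 0) →
        ((∀ i, (psys d b a T i).IsHomogeneous d) ∧
          ∀ x : Fin (N + 2) → ℂ, (∀ i, eval x (psys d b a T i) = 0) → x = 0) ∧
        ∀ (g : MvPolynomial (Fin (N + 2)) ℂ) (e : ℕ), g.IsHomogeneous e →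
        ∀ (c : ℂ) (m : Multiset (MvPolynomial (Fin N) ℂ)), c ≠ 0 → fch g = C c * m.prod →
        (∀ J ∈ m, Escaping (fun i => fch (T i)) J) →
        ∀ α : Fin (N + 2) → ℂ, (α 0 ≠ 0 ∨ α 1 ≠ 0) →
          ((∃ n, (pt (psys d b a T))^[n] α 0 = 0) ∨
            ((∀ k, IsAlgebraic ℚ (b.coeff k)) ∧ (∀ k, IsAlgebraic ℚ (a.coeff k)) ∧
              ∀ m n, m < n → (pt (psys d b a T))^[m] α 0 * (pt (psys d b a T))^[n] α 1 ≠
                (pt (psys d b a T))^[n] α 0 * (pt (psys d b a T))^[m] α 1) ∨
            Transcendental (IntermediateField.adjoin ℚ (Set.range b.coeff ∪ Set.range a.coeff))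
              (α 0 / α 1)) →
          (∀ n, (pt (psys d b a T))^[n] α ≠ 0) ∧
            {n : ℕ | eval ((pt (psys d b a T))^[n] α) g = 0}.Finite) ∧
    ∀ (N : ℕ) (f : Fin N → MvPolynomial (Fin N) ℂ) (k : Fin N) (q : Polynomial ℂ),
      f k = Polynomial.aeval (X k) q → ∀ c : ℂ,
      (Set.range fun i : ℕ => (fun z => q.eval z)^[i] c).Finite →
      (∀ i : ℕ, 1 ≤ i → (fun z => q.eval z)^[i] c ≠ c) → Escaping f (X k - C c) :=
  ⟨fun _ _ hd b a hb ha hlead hcop hb0 ha0 hb1 T hT hT0 =>
      ⟨⟨psys_homogeneous b a T hT, fun x hx => psys_endo hb ha hcop hlead T hT0 x hx⟩,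
        fun g e hge c m hc hg hm α hα h =>
          ⟨psys_ne_zero hb ha hcop hlead T α hα,
            proj_fin hb ha hcop hlead hb0 ha0 T hT g e hge c hc m hg hm α hα
              (reach_of hd hb ha hcop hlead hb0 hb1 T α hα h)⟩⟩,
    fun _ f k q hf c hfin hne => escaping_coord f k q hf c hfin hne⟩

end Pool.Agent.Results.MP_b15c9e_ag.FiniteReturns
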