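import Pool.Agent.Q116.DY.PFam

/-!
# MP_b15c9e_ag: Dynamical Mordell-Lang for 100 percent of the integral members of families of maps with
any number of parameters which are étale preperiodic along one hypersurface of parameters

**Families.** Let `F_{t,0}, …, F_{t,N}` be forms of degree `d` in `N + 1` variables whose coefficients
are complex polynomials in `t = (t_1, …, t_r)` (`member F t`), and let `x_0, …, x_N` be complex
polynomials in `t` (`start x t`). So `F_t` is a family of rational self-maps of `ℙ^N` with `r`
parameters (for example of endomorphisms) and `x(t)` is a family of starting points.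

**Theorem.** Let `f ∈ ℤ[t_1, …, t_r]` be irreducible and not constant, and suppose that along the
hypersurface `f(t) = 0` the orbit of `x(t)` under `F_t` is defined, finite, and étale: for some
`a < b` the points `F_t^b(x(t))` and `F_t^a(x(t))` of `ℙ^N` are equal for `f(t) = 0`, and modulo `f` some
coordinate of `F_t^n(x(t))`, `n ≤ b`, and the Jacobian determinant of `F_t` at `F_t^n(x(t))`,
`a ≤ n < b`, are complex numbers different from zero times integral polynomials which are not
divisible by `f` (`UnitMod`). Then for all `ε > 0`, for all but `O(H ^ (r - 1 + ε))` of the about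
`(2 H) ^ r` integral parameters `t` with `|t_j| ≤ H`, the orbit of `x(t)` under `F_t` is defined (no
iterate is zero), and for every set `S` of polynomials in `N + 1` variables (for closed subsets of
`ℙ^N`: a set of forms) the set of the `n` such that all members of `S` vanish at the `n`-th iterate is a
finite union of arithmetic progressions (`DMLAt`).

**Example.** Let `A` be any endomorphism of `ℙ^N` over `ℂ`, and `P` any point whose orbit is finite and
such that `A` is étale at the points of the cycle (`EtalePreperiodic`). Let `f` be any irreducible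
polynomial in `ℤ[t_1, …, t_r]`, not constant, and let `G_t` be any forms of degree `d` and `y(t)` any
vector, with coefficients in `ℂ[t]`. Then the conclusion holds for the maps `A + f(t) G_t` at the points
`P + f(t) y(t)`, for all but `O(H ^ (r - 1 + ε))` of the `t`. For instance the coefficients of `G` and
the coordinates of `y` may be the parameters `t_2, t_3, …` themselves, and `f = t_1`: then these are all
the maps `A + m G` and points `P + m y`, where `m`, the coefficients of `G`, and the `y_j` are integers.
The special parameters, for which the orbit is known to be finite, are of codimension one, and the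
general member of the family has nothing to do with `A`.

The case of one parameter `r = 1` (with fewer exceptions, and for algebraic `α` instead of a
polynomial) is the starting file `OnePreperiodicMember`.
-/

set_option autoImplicit false

namespace Pool.Agent.Results.MP_b15c9e_ag.MultiparameterFamilies

open MvPolynomial
open Pool.Agent.H936R2 (pt jac pt_map jac_map)
open Pool.Agent.Y199.DM (DMLAt EtalePreperiodic)
open Pool.Agent.Q116.DY (member start toC UnitMod family_count_proj)

variable {N d r : ℕ}

/-- The members of the family `A + f(t) G_t`. -/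
noncomputable def perturbed (A : Fin (N + 1) → MvPolynomial (Fin (N + 1)) ℂ)
    (f : MvPolynomial (Fin r) ℤ) (G : Fin (N + 1) → MvPolynomial (Fin (N + 1))
      (MvPolynomial (Fin r) ℂ)) : Fin (N + 1) → MvPolynomial (Fin (N + 1)) (MvPolynomial (Fin r) ℂ) :=
  fun i => map C (A i) + C (toC f) * G i

/-- The points `P + f(t) y(t)`. -/
noncomputable def perturbedPoint (P : Fin (N + 1) → ℂ) (f : MvPolynomial (Fin r) ℤ)
    (y : Fin (N + 1) → MvPolynomial (Fin r) ℂ) : Fin (N + 1) → MvPolynomial (Fin r) ℂ :=
  fun i => C (P i) + toC f * y i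

/-- The quotient map. -/
noncomputable abbrev qm (f : MvPolynomial (Fin r) ℤ) :
    MvPolynomial (Fin r) ℂ →+* MvPolynomial (Fin r) ℂ ⧸ Ideal.span {toC f} :=
  Ideal.Quotient.mk (Ideal.span {toC f})

theorem qm_f (f : MvPolynomial (Fin r) ℤ) : qm f (toC f) = 0 := by
  rw [Ideal.Quotient.eq_zero_iff_mem]
  exact Ideal.mem_span_singleton_self _

theorem dvd_of_qm {f : MvPolynomial (Fin r) ℤ} {q q' : MvPolynomial (Fin r) ℂ}
    (h : qm f q = qm f q') : toC f ∣ q - q' := by
  rw [← Ideal.mem_span_singleton, ← Ideal.Quotient.eq_zero_iff_mem, map_sub, sub_eq_zero]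
  exact h

theorem map_perturbed (A : Fin (N + 1) → MvPolynomial (Fin (N + 1)) ℂ)
    (f : MvPolynomial (Fin r) ℤ) (G : Fin (N + 1) → MvPolynomial (Fin (N + 1))
      (MvPolynomial (Fin r) ℂ)) :
    (fun i => map (qm f) (perturbed A f G i)) = fun i => map ((qm f).comp C) (A i) := by
  funext i
  rw [perturbed, map_add, map_mul, map_C, qm_f, C_0, zero_mul, add_zero, map_map]

theorem qm_point (P : Fin (N + 1) → ℂ) (f : MvPolynomial (Fin r) ℤ)
    (y : Fin (N + 1) → MvPolynomial (Fin r) ℂ) :
    (fun i => qm f (perturbedPoint P f y i)) = fun i => ((qm f).comp C) (P i) := by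
  funext i
  rw [perturbedPoint, map_add, map_mul, qm_f, zero_mul, add_zero]
  rfl

theorem qm_orbit (A : Fin (N + 1) → MvPolynomial (Fin (N + 1)) ℂ)
    (f : MvPolynomial (Fin r) ℤ) (G : Fin (N + 1) → MvPolynomial (Fin (N + 1))
      (MvPolynomial (Fin r) ℂ)) (P : Fin (N + 1) → ℂ) (y : Fin (N + 1) → MvPolynomial (Fin r) ℂ)
    (n : ℕ) : (fun i => qm f ((pt (perturbed A f G))^[n] (perturbedPoint P f y) i)) =
      fun i => ((qm f).comp C) ((pt A)^[n] P i) := by
  rw [← pt_map (qm f), map_perturbed, qm_point, pt_map]

theorem qm_jac (A : Fin (N + 1) → MvPolynomial (Fin (N + 1)) ℂ)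
    (f : MvPolynomial (Fin r) ℤ) (G : Fin (N + 1) → MvPolynomial (Fin (N + 1))
      (MvPolynomial (Fin r) ℂ)) (P : Fin (N + 1) → ℂ) (y : Fin (N + 1) → MvPolynomial (Fin r) ℂ)
    (n : ℕ) : qm f (jac (perturbed A f G) ((pt (perturbed A f G))^[n] (perturbedPoint P f y))).det =
      qm f (C (jac A ((pt A)^[n] P)).det) := by
  rw [RingHom.map_det, ← jac_map, map_perturbed, qm_orbit, jac_map, ← RingHom.map_det]
  rfl

/-- **Dynamical Mordell-Lang for families with any number of parameters.**

(1) Let `F_t`, `x(t)` be a family of systems of forms of degree `d` and of points with `r` parameters,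
with coefficients in `ℂ[t]`, and let `f ∈ ℤ[t]` be irreducible and not constant. Suppose that modulo
`f` the vectors `F_t^b(x(t))` and `F_t^a(x(t))`, `a < b`, are proportional, that some coordinate of
`F_t^n(x(t))`, `n ≤ b`, and the Jacobian determinant of `F_t` at `F_t^n(x(t))`, `a ≤ n < b`, are
modulo `f` nonzero multiples of integral polynomials not divisible by `f`. Then for all but
`O(H ^ (r - 1 + ε))` of the integral `t` of height at most `H` the Dynamical Mordell-Lang conjecture
holds for the orbit of `x(t)` under `F_t`.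

(2) In particular let `P` be an étale preperiodic point of a system `A` of complex forms of degree `d`.
Then for all `f` as above and all families of forms `G_t` of degree `d` and vectors `y(t)` with
coefficients in `ℂ[t]` the conclusion of (1) holds for `A + f(t) G_t` and `P + f(t) y(t)`. -/
theorem result {ε : ℝ} (hε : 0 < ε) (f : MvPolynomial (Fin r) ℤ) (hf : Irreducible f)
    (hd : f.totalDegree ≠ 0) :
    (∀ (F : Fin (N + 1) → MvPolynomial (Fin (N + 1)) (MvPolynomial (Fin r) ℂ))
      (x : Fin (N + 1) → MvPolynomial (Fin r) ℂ), (∀ i, (F i).IsHomogeneous d) →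
      ∀ a b : ℕ, a < b →
      (∀ i j, toC f ∣ (pt F)^[b] x i * (pt F)^[a] x j - (pt F)^[b] x j * (pt F)^[a] x i) →
      (∀ n, n ≤ b → ∃ i, UnitMod f ((pt F)^[n] x i)) →
      (∀ n, a ≤ n → n < b → UnitMod f (jac F ((pt F)^[n] x)).det) →
      ∃ K : ℝ, ∀ H : ℕ, 1 ≤ H →
        (Set.ncard {t : Fin r → ℤ | (∀ j, |t j| ≤ (H : ℤ)) ∧
          ¬ DMLAt (member F fun j => (t j : ℂ)) (start x fun j => (t j : ℂ))} : ℝ) ≤
            K * (H : ℝ) ^ ((r : ℝ) - 1 + ε)) ∧
    ∀ (A : Fin (N + 1) → MvPolynomial (Fin (N + 1)) ℂ) (P : Fin (N + 1) → ℂ),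
      (∀ i, (A i).IsHomogeneous d) → EtalePreperiodic A P →
      ∀ (G : Fin (N + 1) → MvPolynomial (Fin (N + 1)) (MvPolynomial (Fin r) ℂ))
        (y : Fin (N + 1) → MvPolynomial (Fin r) ℂ), (∀ i, (G i).IsHomogeneous d) →
      ∃ K : ℝ, ∀ H : ℕ, 1 ≤ H →
        (Set.ncard {t : Fin r → ℤ | (∀ j, |t j| ≤ (H : ℤ)) ∧
          ¬ DMLAt (member (perturbed A f G) fun j => (t j : ℂ))
            (start (perturbedPoint P f y) fun j => (t j : ℂ))} : ℝ) ≤
              K * (H : ℝ) ^ ((r : ℝ) - 1 + ε) := by
  refine ⟨fun F x hF a b hab hper hnz hjac =>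
    family_count_proj F hF x f hf hd a b hab hper hnz hjac hε, fun A P hA hP G y hG => ?_⟩
  obtain ⟨hP0, n₀, m, hm, ⟨c, hc⟩, hdet⟩ := hP
  have h1 : ¬ f ∣ 1 := fun h => hf.not_isUnit (isUnit_of_dvd_one h)
  have hunit : ∀ (q : MvPolynomial (Fin r) ℂ) (z : ℂ), z ≠ 0 → qm f q = qm f (C z) →
      UnitMod f q := by
    intro q z hz hq
    refine ⟨1, h1, z, hz, ?_⟩
    have h2 := dvd_of_qm hq
    have h3 : toC (1 : MvPolynomial (Fin r) ℤ) = 1 := map_one _
    rw [h3, mul_one]
    exact h2
  refine family_count_proj (d := d) (perturbed A f G) (fun i => ?_) (perturbedPoint P f y) f hf hd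
    n₀ (n₀ + m) (by omega) (fun i j => ?_) (fun n _ => ?_) (fun n hn _ => ?_) hε
  · have h2 := (isHomogeneous_C (Fin (N + 1)) (toC f)).mul (hG i)
    rw [zero_add] at h2
    exact ((hA i).map C).add h2
  · have h2 := congrFun (qm_orbit A f G P y (n₀ + m))
    have h3 := congrFun (qm_orbit A f G P y n₀)
    have h4 : qm f ((pt (perturbed A f G))^[n₀ + m] (perturbedPoint P f y) i *
        (pt (perturbed A f G))^[n₀] (perturbedPoint P f y) j) =
        qm f ((pt (perturbed A f G))^[n₀ + m] (perturbedPoint P f y) j *
        (pt (perturbed A f G))^[n₀] (perturbedPoint P f y) i) := by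
      rw [map_mul, map_mul, h2 i, h3 j, h2 j, h3 i, ← map_mul, ← map_mul]
      congr 1
      rw [hc, Pi.smul_apply, Pi.smul_apply, smul_eq_mul, smul_eq_mul]
      ring
    exact dvd_of_qm h4
  · obtain ⟨i, hi⟩ := Function.ne_iff.1 (hP0 n)
    exact ⟨i, hunit _ _ hi (congrFun (qm_orbit A f G P y n) i)⟩
  · exact hunit _ _ (hdet n hn) (qm_jac A f G P y n)

end Pool.Agent.Results.MP_b15c9e_ag.MultiparameterFamilies
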