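import Pool.Agent.Q118.SK.Plane
import Pool.Agent.Q118.SK.Ex

/-!
# The Dynamical Mordell-Lang property for skew endomorphisms of the projective plane

Let `B = b / a` be any rational function of degree `d ≥ 2` with algebraic coefficients which fixes `0`
with multiplier `B'(0) ≠ 0` (every rational function of degree at least two has a fixed point whose
multiplier is not zero). Let `T` be a complex form of degree `d` in `X_0, X_1, X_2` such that all
critical points of the polynomial `q(x) = T(0, 1, x)` of degree `d` are strictly preperiodic: their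
orbits are finite and do not return to them. Then

`F = [X_1^d b(X_0/X_1) : X_1^d a(X_0/X_1) : T]`

is an endomorphism of `P^2`, and it has the Dynamical Mordell-Lang property: for EVERY point of
`P^2(ℂ)` and every closed subset the return set is a finite union of arithmetic progressions.

The form `T` can be any form `X_1^d q(X_2/X_1) + X_0 S(X_0, X_1, X_2)` with complex coefficients, where
`S` is an arbitrary form of degree `d - 1`, and `q` for example `z ^ d + c` with
`(c^(d-1) + 1) ^ d = 1`, `c ≠ 0`, in particular `z ^ 2 - 2` (second part of the theorem). The map `B`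
need not be a polynomial, `F` is ramified, and it is in general not a polynomial map of an affine
plane, not split, and not étale along any preperiodic orbit given in advance.

The definitions (in the helper files):
* `psys d b a T` is the system of forms written above (`hp d q i j` is `X_j^d q(X_i/X_j)`);
* `StrictlyPreperiodic q`: the orbit of every root of `q'` is finite and does not return to it.

The proof: points over a base point which is not preperiodic for `B` are treated with `proj_all`
(an iterate of the base point is near a preimage of the fixed point `0` at a place of good reduction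
with large residue characteristic; there the orbit is étale from some index on); the orbits of all
other points lie on finitely many lines through `(0 : 0 : 1)`, and there the return sets are studied
directly.
-/

set_option autoImplicit false

namespace Pool.Agent.Results.MP_b15c9e_ag.PlaneSkewProducts

open MvPolynomial Pool.Agent.H936R2 Pool.Agent.Y199.DM Pool.Agent.Q118.SK

/-- The Dynamical Mordell-Lang property for a class of endomorphisms of the projective plane. -/
theorem result :
    (∀ (d : ℕ), 2 ≤ d → ∀ (b a : Polynomial ℂ), b.natDegree ≤ d → a.natDegree ≤ d →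
      (a.coeff d ≠ 0 ∨ b.coeff d ≠ 0) → IsCoprime a b →
      (∀ k, IsAlgebraic ℚ (b.coeff k)) → (∀ k, IsAlgebraic ℚ (a.coeff k)) →
      b.coeff 0 = 0 → a.coeff 0 = 1 → b.coeff 1 ≠ 0 →
      ∀ T : MvPolynomial (Fin 3) ℂ, T.IsHomogeneous d →
      (aeval ![0, 1, Polynomial.X] T : Polynomial ℂ).natDegree = d →
      StrictlyPreperiodic (aeval ![0, 1, Polynomial.X] T : Polynomial ℂ) →
      ∀ f : Fin 3 → MvPolynomial (Fin 3) ℂ, f = psys d b a (fun _ : Fin 1 => T) →
        (∀ i, (f i).IsHomogeneous d) ∧
        (∀ x : Fin 3 → ℂ, (∀ i, eval x (f i) = 0) → x = 0) ∧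
        ∀ S : Set (MvPolynomial (Fin 3) ℂ), (∀ g ∈ S, ∃ e : ℕ, g.IsHomogeneous e) →
        ∀ α : Fin 3 → ℂ, α ≠ 0 →
        ∃ R : Finset (ℕ × ℕ),
          {n : ℕ | ∀ g ∈ S, eval ((fun x : Fin 3 → ℂ => fun i => eval x (f i))^[n] α) g = 0} =
            {n : ℕ | ∃ p ∈ R, ∃ m : ℕ, n = p.1 * m + p.2}) ∧
    ∀ (d : ℕ) (c : ℂ), 2 ≤ d → c ≠ 0 → (c ^ (d - 1) + 1) ^ d = 1 →
      StrictlyPreperiodic (Polynomial.X ^ d + Polynomial.C c) := by
  refine ⟨?_, fun _ _ hd hc hcd => unicritical hd hc hcd⟩
  intro d hd b a hb ha hlead hcop hba haa hb0 ha0 hb1 T hT hq hpc f hf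
  subst hf
  refine ⟨psys_homogeneous (N := 1) b a (fun _ : Fin 1 => T) fun _ => hT, fun x hx => ?_,
    fun S hS α hα => plane_all hd hb ha hcop hlead hba haa hb0 ha0 hb1 T hT hq hpc S hS α hα⟩
  refine psys_endo hb ha hcop hlead (fun _ : Fin 1 => T) (fun y hy => ?_) x hx
  have h1 : (Fin.cons 0 (Fin.cons 0 y) : Fin 3 → ℂ) = ![0, 0, y 0] := by
    funext i
    fin_cases i <;> rfl
  have h2 := hy 0
  rw [h1] at h2
  funext i
  rw [Fin.eq_zero i]
  exact eval_axis T hT hq (by omega) _ h2

end Pool.Agent.Results.MP_b15c9e_ag.PlaneSkewProducts
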