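import Pool.Agent.Q118.SK.Base
import Pool.Agent.Q118.SK.Ex

/-!
# Dynamical Mordell-Lang for skew endomorphisms of `P^(N+1)` with one good fixed fibre

Let `B = b / a` be any rational function of degree `d ≥ 2` which fixes `0` with multiplier
`B'(0) ≠ 0` (every rational function of degree at least two has a fixed point whose multiplier is not
zero). Let `T_1, …, T_N` be complex forms of degree `d` in `N + 2` variables without a common zero on
`X_0 = X_1 = 0`, so that

`F = [X_1^d b(X_0/X_1) : X_1^d a(X_0/X_1) : T_1 : … : T_N]`

is an endomorphism of `P^(N+1)`, a skew product over `B`. On the fibre over the fixed point `0` the map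
is the regular polynomial endomorphism `f = (T_j(0, 1, x))` of the affine space of dimension `N`.
Suppose that the ramification of `f` never returns to itself: `det (∂ f / ∂ x) = c ∏ J`, `c ≠ 0`, where
each hypersurface `J = 0` is escaping: there are finitely many hypersurfaces `P_i = 0`, `P_0 = J`, such
that `f` maps `P_i = 0` to `P_(i + 1) = 0`, and such that `P_i = 0` does not meet `J = 0` for `i ≥ 1`.
Then the Dynamical Mordell-Lang conjecture holds for `F` at all complex points `α` with
`(α_0, α_1) ≠ (0, 0)` such that

* `[α_0 : α_1]` is mapped to the fixed point `0` by an iterate of `B`, or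
* `B` has algebraic coefficients and `[α_0 : α_1]` is any complex point that is not preperiodic
  for `B`, or
* `α_0 / α_1` is transcendental over the field generated by the coefficients of `b` and `a`.

Second part: the hypotheses on the fibre hold for `T_j = X_1^d g_j(X_(j+1)/X_1) + X_0 S_j`, where
`g_1, …, g_N` are complex polynomials of degree `d` all of whose critical points are strictly
preperiodic and `S_1, …, S_N` are arbitrary complex forms of degree `d - 1`. Third part: `z ^ d + c` with
`(c^(d-1) + 1) ^ d = 1`, `c ≠ 0` (for example `z ^ 2 - 2`) is such a polynomial.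

The definitions (in the helper files):
* `psys d b a T` is the system of forms written above (`hp d q i j` is `X_j^d q(X_i/X_j)`);
* `fch q` is `q(0, 1, X_0, …, X_(N - 1))`; `fchJac T` is the matrix of the partial derivatives of `f`;
* `Escaping f J` is the property above;
* `splitForms d g S` are the forms `X_1^d g_j(X_(j+1)/X_1) + X_0 S_j` of the second part;
* `StrictlyPreperiodic g`: the orbit of every root of `g'` is finite and does not return to it;
* `pt F x` is the value of the system at `x`;
* `DMLAt F x`: no iterate of `x` is zero, and for every set `S` of polynomials the set of the `n` such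
  that all members of `S` vanish at the `n`-th iterate is a finite union of arithmetic progressions.

The proof: the fixed point `0` has infinitely many preimages under the iterates of `B`. Some iterate of
`[α_0 : α_1]` is near to one of them at a place with a large residue characteristic, where all data have
good reduction: by the unit equation if `[α_0 : α_1]` is algebraic, and by a construction of places
near a preimage if it is transcendental. There the reduction of the orbit of `α` enters the fibre over
`0`, so that the orbit is étale from some index on, and `p`-adic interpolation applies.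
-/

set_option autoImplicit false

namespace Pool.Agent.Results.MP_b15c9e_ag.SkewPostcriticallyFinite

open MvPolynomial Pool.Agent.H936R2 Pool.Agent.Y199.DM Pool.Agent.Q118.SK

/-- The Dynamical Mordell-Lang conjecture at all points over wandering points of the base, and
examples. -/
theorem result :
    (∀ (N d : ℕ), 2 ≤ d → ∀ (b a : Polynomial ℂ), b.natDegree ≤ d → a.natDegree ≤ d →
      (a.coeff d ≠ 0 ∨ b.coeff d ≠ 0) → IsCoprime a b →
      b.coeff 0 = 0 → a.coeff 0 = 1 → b.coeff 1 ≠ 0 →
      ∀ (T : Fin N → MvPolynomial (Fin (N + 2)) ℂ), (∀ j, (T j).IsHomogeneous d) →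
      (∀ y : Fin N → ℂ,
        (∀ j, eval (Fin.cons 0 (Fin.cons 0 y) : Fin (N + 2) → ℂ) (T j) = 0) → y = 0) →
      ∀ (c : ℂ) (m : Multiset (MvPolynomial (Fin N) ℂ)), c ≠ 0 →
      (fchJac T).det = C c * m.prod → (∀ J ∈ m, Escaping (fun i => fch (T i)) J) →
        ((∀ i, (psys d b a T i).IsHomogeneous d) ∧
          ∀ x : Fin (N + 2) → ℂ, (∀ i, eval x (psys d b a T i) = 0) → x = 0) ∧
        ∀ α : Fin (N + 2) → ℂ, (α 0 ≠ 0 ∨ α 1 ≠ 0) →
          ((∃ n, (pt (psys d b a T))^[n] α 0 = 0) ∨
            ((∀ k, IsAlgebraic ℚ (b.coeff k)) ∧ (∀ k, IsAlgebraic ℚ (a.coeff k)) ∧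
              ∀ m n, m < n → (pt (psys d b a T))^[m] α 0 * (pt (psys d b a T))^[n] α 1 ≠
                (pt (psys d b a T))^[n] α 0 * (pt (psys d b a T))^[m] α 1) ∨
            Transcendental (IntermediateField.adjoin ℚ (Set.range b.coeff ∪ Set.range a.coeff))
              (α 0 / α 1)) →
          DMLAt (psys d b a T) α) ∧
    (∀ (N d : ℕ), 2 ≤ d → ∀ (g : Fin N → Polynomial ℂ), (∀ j, (g j).natDegree = d) →
      (∀ j, StrictlyPreperiodic (g j)) →
      ∀ (S : Fin N → MvPolynomial (Fin (N + 2)) ℂ), (∀ j, (S j).IsHomogeneous (d - 1)) →
        (∀ j, (splitForms d g S j).IsHomogeneous d) ∧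
        (∀ y : Fin N → ℂ,
          (∀ j, eval (Fin.cons 0 (Fin.cons 0 y) : Fin (N + 2) → ℂ) (splitForms d g S j) = 0) →
            y = 0) ∧
        ∃ (c : ℂ) (m : Multiset (MvPolynomial (Fin N) ℂ)), c ≠ 0 ∧
          (fchJac (splitForms d g S)).det = C c * m.prod ∧
          ∀ J ∈ m, Escaping (fun i => fch (splitForms d g S i)) J) ∧
    ∀ (d : ℕ) (c : ℂ), 2 ≤ d → c ≠ 0 → (c ^ (d - 1) + 1) ^ d = 1 →
      StrictlyPreperiodic (Polynomial.X ^ d + Polynomial.C c) :=
  ⟨fun _ _ hd b a hb ha hlead hcop hb0 ha0 hb1 T hT hT0 c m hc hJ hm =>
      ⟨⟨psys_homogeneous b a T hT, fun x hx => psys_endo hb ha hcop hlead T hT0 x hx⟩,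
        fun α hα h => proj_all hd hb ha hcop hlead hb0 ha0 hb1 T hT c hc m hJ hm α hα
          (reach_of hd hb ha hcop hlead hb0 hb1 T α hα h)⟩,
    fun _ _ hd g hgd hpc S hS => splitForms_spec hd g hgd hpc S hS,
    fun _ _ hd hc hcd => unicritical hd hc hcd⟩

end Pool.Agent.Results.MP_b15c9e_ag.SkewPostcriticallyFinite
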